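import Pool.Agent.TH311.Os.Meas

/-!
# MP_94eb8e_an: a non-periodic invariant measure of a billiard map without Oseledets integrability

The definitions used by the statement (`IsTable`, `chart`, `transversal`, `reflect`, `IsNext`,
`billiard`, `regularStates`, `IsCoordDeriv`, `derivNorm`) are in `Pool/Agent/TH311/Os/Defs.lean`.

The table is the annulus `1 ≤ |z| ≤ 2`. The measure lives on the orbits that hit both circles; the
angular momentum (constant along orbits) has a distribution which gives so much mass to the orbits
that are nearly tangent to the inner circle that `log ‖DT‖` is not integrable. It is non-periodic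
since only countably many values of the angular momentum have periodic orbits.
-/

set_option autoImplicit false

open MeasureTheory Pool.Agent.TH311.Os

namespace Pool.Agent.Results.MP_94eb8e_an.AnnulusCounterexample

/-- There are a billiard table `Q` without corners (hence without cusps) and a Borel probability
measure `μ` on its phase space which is invariant under the billiard map, gives full mass to the
states whose entire orbit is defined and has no tangential collisions, gives mass zero to the
periodic points, and for which `log⁺ ‖DT‖` is not integrable: `∫ log⁺ ‖DT‖ dμ = ∞`. (At almost all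
states the derivative `DT` in the coordinates `(r, φ)` exists and is unique.) -/
theorem result : ∃ (m : ℕ) (Q : Set ℂ) (γ : Fin m → ℝ → ℂ) (L : Fin m → ℝ) (μ : Measure (ℂ × ℂ)),
    IsTable Q γ L ∧
    IsProbabilityMeasure μ ∧
    AEMeasurable (billiard Q γ) μ ∧ μ.map (billiard Q γ) = μ ∧
    μ (regularStates Q γ)ᶜ = 0 ∧
    μ {x | ∃ n : ℕ, 0 < n ∧ (billiard Q γ)^[n] x = x} = 0 ∧
    (∀ᵐ x ∂μ, ∃! A, IsCoordDeriv Q γ x A) ∧
    ∫⁻ x, ENNReal.ofReal (Real.posLog (derivNorm Q γ x)) ∂μ = ⊤ :=
  ⟨2, Q, ga, La, mu, isTable, inferInstance, aem_mu, map_mu, regular_mu, nonper_mu, deriv_mu,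
    int_mu⟩

end Pool.Agent.Results.MP_94eb8e_an.AnnulusCounterexample
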